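import Pool.Agent.W981.Blk.Points

/-!
# Families with small excess rank
-/

set_option autoImplicit false
set_option linter.unusedSectionVars false

namespace Pool.Agent.W981.Blk

open Pool.Agent.W981.Hyp Module Matrix MvPolynomial

variable {K : Type*} [Field K] {n m : Type*} [Fintype n] [Fintype m]

/-- A matrix of rank `r` is a sum of `r` matrices of rank one. -/
theorem exists_sum_rank_one (T : Matrix m n K) :
    ∃ (u : Fin T.rank → m → K) (v : Fin T.rank → n → K), T = ∑ i, vecMulVec (u i) (v i) := by
  classical
  obtain ⟨f, -, hf, -⟩ := Submodule.exists_fun_fin_finrank_span_eq K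
    (LinearMap.range T.mulVecLin : Set (m → K))
  have hs : finrank K (Submodule.span K (LinearMap.range T.mulVecLin : Set (m → K))) = T.rank := by
    rw [Submodule.span_eq]
    rfl
  replace hf := hf.trans (Submodule.span_eq (LinearMap.range T.mulVecLin))
  have h1 : ∀ j, ∃ c : Fin (finrank K (Submodule.span K
      (LinearMap.range T.mulVecLin : Set (m → K)))) → K, ∑ i, c i • f i = T.col j := by
    intro j
    refine (Submodule.mem_span_range_iff_exists_fun K).1 ?_
    rw [hf]
    exact ⟨Pi.single j 1, by rw [mulVecLin_apply, mulVec_single_one]⟩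
  choose c hc using h1
  refine ⟨f ∘ Fin.cast hs.symm, fun i j => c j (Fin.cast hs.symm i), ?_⟩
  have h2 : T = ∑ i, vecMulVec (f i) (fun j => c j i) := by
    ext a j
    have h3 := congrFun (hc j) a
    rw [Matrix.col_apply] at h3
    rw [← h3, Finset.sum_apply, Matrix.sum_apply]
    refine Finset.sum_congr rfl fun i _ => ?_
    rw [Pi.smul_apply, smul_eq_mul, vecMulVec_apply, mul_comm]
  exact h2.trans (Fintype.sum_equiv (finCongr hs) _ _ fun i => rfl)

theorem near_of_ranks {σ : Type*} [Fintype σ] (A : σ → Matrix m n K) (c : ℕ)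
    (h : ∑ k, ((A k).rank - 1) ≤ c) : ∃ R : Set (Matrix m n K), (∀ T ∈ R, T.rank ≤ 1) ∧
      (∀ k, A k ∈ Submodule.span K R) ∧
      finrank K (Submodule.span K R) ≤ finrank K (Submodule.span K (Set.range A)) + c := by
  classical
  obtain ⟨f, hfA, hfs, hli⟩ := Submodule.exists_fun_fin_finrank_span_eq K (Set.range A)
  choose κ hκ using hfA
  have hκi : Function.Injective κ := by
    intro i j hij
    refine hli.injective ?_
    rw [← hκ i, ← hκ j, hij]
  choose u v huv using fun i => exists_sum_rank_one (f i)
  set R : Set (Matrix m n K) := Set.range fun p : (Σ i, Fin (f i).rank) =>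
    vecMulVec (u p.1 p.2) (v p.1 p.2) with hR
  refine ⟨R, ?_, fun k => ?_, ?_⟩
  · rintro _ ⟨p, rfl⟩
    exact rank_vecMulVec_le _ _
  · have h1 : A k ∈ Submodule.span K (Set.range f) := by
      rw [hfs]
      exact Submodule.subset_span ⟨k, rfl⟩
    refine (Submodule.span_le.2 ?_) h1
    rintro _ ⟨i, rfl⟩
    rw [SetLike.mem_coe, huv i]
    exact Submodule.sum_mem _ fun j _ => Submodule.subset_span ⟨⟨i, j⟩, rfl⟩
  · have h1 : finrank K (Submodule.span K R) ≤ Fintype.card (Σ i, Fin (f i).rank) :=
      finrank_range_le_card _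
    have h2 : Fintype.card (Σ i, Fin (f i).rank) = ∑ i, (f i).rank := by simp
    have h3 : ∑ i, (f i).rank = ∑ i : Fin (finrank K (Submodule.span K (Set.range A))),
        (1 + ((f i).rank - 1)) := by
      refine Finset.sum_congr rfl fun i _ => ?_
      have h4 : (f i).rank ≠ 0 := by
        intro h0
        refine hli.ne_zero i ?_
        have h6 := huv i
        have h7 : IsEmpty (Fin (f i).rank) := by
          rw [h0]
          exact Fin.isEmpty
        rw [h6, Finset.univ_eq_empty, Finset.sum_empty]
      omega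
    have h5 : ∑ i, ((f i).rank - 1) ≤ ∑ k, ((A k).rank - 1) := by
      calc ∑ i, ((f i).rank - 1) = ∑ i, ((A (κ i)).rank - 1) :=
            Finset.sum_congr rfl fun i _ => by rw [hκ i]
        _ = ∑ k ∈ Finset.univ.image κ, ((A k).rank - 1) := by
            rw [Finset.sum_image fun i _ j _ hij => hκi hij]
        _ ≤ _ := Finset.sum_le_sum_of_subset (Finset.subset_univ _)
    rw [h2, h3, Finset.sum_add_distrib, Finset.sum_const, Finset.card_univ, Fintype.card_fin,
      smul_eq_mul, mul_one] at h1
    omega

end Pool.Agent.W981.Blk
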