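import Pool.Agent.W981.Blk.Main

/-!
# The dimension counts
-/

set_option autoImplicit false
set_option linter.unusedSectionVars false

namespace Pool.Agent.W981.Blk

open Pool.Agent.W981.Hyp Module Matrix MvPolynomial

section main

variable {σ ι K : Type*} [Field K] [DecidableEq σ] [Fintype σ] [Fintype ι]
  {n m : Type*} [Fintype n] [Fintype m]

/-- The subspace `U₁`. -/
def U1 {F : Type*} [Field F] [Algebra K F] (X : Submodule K (n → K)) (u : ι → m → K)
    (v : ι → n → K) (w : m → F) : Submodule K (n → K) where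
  carrier := {x | x ∈ X ∧ ∀ i, w ⬝ᵥ up F (u i) ≠ 0 → v i ⬝ᵥ x = 0}
  add_mem' := by
    rintro x y ⟨hx, hx'⟩ ⟨hy, hy'⟩
    exact ⟨Submodule.add_mem _ hx hy, fun i hi => by
      rw [dotProduct_add, hx' i hi, hy' i hi, add_zero]⟩
  zero_mem' := ⟨Submodule.zero_mem _, fun i _ => dotProduct_zero _⟩
  smul_mem' := by
    rintro c x ⟨hx, hx'⟩
    exact ⟨Submodule.smul_mem _ _ hx, fun i hi => by rw [dotProduct_smul, hx' i hi, smul_zero]⟩

/-- The subspace `E₁`. -/
def E1 {F : Type*} [Field F] [Algebra K F] (X : Submodule K (n → K)) (u : ι → m → K)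
    (v : ι → n → K) (w : m → F) : Submodule K (m → K) :=
  Submodule.span K {y | ∃ i, u i = y ∧ w ⬝ᵥ up F (u i) = 0 ∧ ∃ x ∈ X, v i ⬝ᵥ x ≠ 0}

/-- The subspace `E₂`. -/
def E2 (X : Submodule K (n → K)) (u : ι → m → K) (v : ι → n → K) : Submodule K (m → K) :=
  Submodule.span K {y | ∃ i, u i = y ∧ ∃ x ∈ X, v i ⬝ᵥ x ≠ 0}

theorem ker_nu_le {F : Type*} [Field F] [Algebra K F] (X : Submodule K (n → K)) (u : ι → m → K)
    (v : ι → n → K) (w : m → F) :
    LinearMap.ker (nu u v w) ⊓ ext F X ≤ ext F (U1 X u v w) := by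
  classical
  rintro x ⟨hx1, hx2⟩
  have hx1' : ∀ i, w ⬝ᵥ up F (u i) ≠ 0 → up F (v i) ⬝ᵥ x = 0 := by
    intro i hi
    have h1 : (w ⬝ᵥ up F (u i)) * (up F (v i) ⬝ᵥ x) = 0 := congrFun hx1 i
    exact (mul_eq_zero.1 h1).resolve_left hi
  obtain ⟨P, hP1, hP2⟩ := exists_ker X
  set B : Matrix (n ⊕ ι) n K := fromRows P (Matrix.of fun i => if w ⬝ᵥ up F (u i) = 0 then 0
    else v i) with hB
  have h1 : x ∈ ext F ((⊥ : Submodule K (n ⊕ ι → K)).comap B.mulVecLin) := by
    apply mem_ext_comap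
    have h2 : B.map (algebraMap K F) *ᵥ x = 0 := by
      funext i
      rcases i with i | i
      · change up F (P i) ⬝ᵥ x = 0
        refine dot_of_mem hx2 fun y hy => ?_
        exact congrFun (hP1 y hy) i
      · change up F (if w ⬝ᵥ up F (u i) = 0 then 0 else v i) ⬝ᵥ x = 0
        split_ifs with hi
        · rw [up_zero, zero_dotProduct]
        · exact hx1' i hi
    rw [h2]
    exact Submodule.zero_mem _
  refine ext_mono ?_ h1
  intro y hy
  have hy' : B *ᵥ y = 0 := by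
    rw [Submodule.mem_comap, Submodule.mem_bot] at hy
    exact hy
  refine ⟨?_, fun i hi => ?_⟩
  · have h3 : P *ᵥ y = 0 := by
      funext i
      exact congrFun hy' (Sum.inl i)
    have h4 := hP2 y
    rwa [h3, sub_zero] at h4
  · have h3 : (if w ⬝ᵥ up F (u i) = 0 then 0 else v i) ⬝ᵥ y = 0 := congrFun hy' (Sum.inr i)
    rwa [if_neg hi] at h3

theorem sum_mulVec_eq {B : Matrix m n K} {a : ι → K} {u : ι → m → K} {v : ι → n → K}
    (hB : B = ∑ i, a i • vecMulVec (u i) (v i)) (x : n → K) :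
    B *ᵥ x = ∑ i, (a i * (v i ⬝ᵥ x)) • u i := by
  subst hB
  rw [Matrix.sum_mulVec]
  refine Finset.sum_congr rfl fun i _ => ?_
  rw [smul_mulVec, vecMulVec_mulVec, op_smul_eq_smul, smul_smul]

/-- a space over the small field -/
noncomputable def BBl {F : Type*} [Field F] [Algebra K F] (u : ι → m → K) (v : ι → n → K)
    (z : n → F) : (ι → F) →ₗ[F] (m → F) where
  toFun y := BB u v y z
  map_add' y y' := BB_add_left u v y y' z
  map_smul' c y := BB_smul_left u v c y z

namespace Dat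

variable {A : σ → Matrix m n K} {u : ι → m → K} {v : ι → n → K} {a : σ → ι → K}
    {X : Submodule K (n → K)} {w : m → FF σ K} {z : n → FF σ K}

theorem im_U1 (h : Dat A u v a X w z) : im A (U1 X u v w) ≤ E1 X u v w := by
  rw [im_le]
  rintro k x ⟨hx, hx'⟩
  rw [sum_mulVec_eq (h.hA k)]
  refine Submodule.sum_mem _ fun i _ => ?_
  by_cases hi : w ⬝ᵥ up (FF σ K) (u i) = 0
  · by_cases hv : v i ⬝ᵥ x = 0
    · rw [hv, mul_zero, zero_smul]
      exact Submodule.zero_mem _
    · exact Submodule.smul_mem _ _ (Submodule.subset_span ⟨i, rfl, hi, x, hx, hv⟩)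
  · rw [hx' i hi, mul_zero, zero_smul]
    exact Submodule.zero_mem _

theorem im_U2 (h : Dat A u v a X w z) : im A X ≤ E2 X u v := by
  rw [im_le]
  intro k x hx
  rw [sum_mulVec_eq (h.hA k)]
  refine Submodule.sum_mem _ fun i _ => ?_
  by_cases hv : v i ⬝ᵥ x = 0
  · rw [hv, mul_zero, zero_smul]
    exact Submodule.zero_mem _
  · exact Submodule.smul_mem _ _ (Submodule.subset_span ⟨i, rfl, x, hx, hv⟩)

theorem E1_le (_ : Dat A u v a X w z) : E1 X u v w ≤ E2 X u v :=
  Submodule.span_mono fun _ ⟨i, hi, _, h2⟩ => ⟨i, hi, h2⟩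

theorem ext_E1_le (h : Dat A u v a X w z) : ext (FF σ K) (E1 X u v w) ≤
    (ext (FF σ K) X).map (gen A).mulVecLin := by
  rw [ext_le_iff]
  intro y hy
  rw [E1] at hy
  induction hy using Submodule.span_induction with
  | mem x hx =>
    obtain ⟨i, rfl, hi, -⟩ := hx
    exact h.hwu i hi
  | zero => rw [up_zero]; exact Submodule.zero_mem _
  | add x y _ _ hx hy => rw [up_add]; exact Submodule.add_mem _ hx hy
  | smul c x _ hx => rw [up_smul]; exact Submodule.smul_mem _ _ hx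

theorem ext_E2_le (h : Dat A u v a X w z) : ext (FF σ K) (E2 X u v) ≤
    (⊤ : Submodule (FF σ K) (ι → FF σ K)).map (BBl u v z) := by
  classical
  rw [ext_le_iff]
  intro y hy
  rw [E2] at hy
  induction hy using Submodule.span_induction with
  | mem x hx =>
    obtain ⟨i, rfl, x, hx, hi⟩ := hx
    have h1 : up (FF σ K) (v i) ⬝ᵥ z ≠ 0 := fun h0 => hi (h.hzv i h0 x hx)
    refine ⟨Pi.single i (up (FF σ K) (v i) ⬝ᵥ z)⁻¹, Submodule.mem_top, ?_⟩
    change BB u v _ z = _
    rw [BB, Finset.sum_eq_single i]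
    · rw [Pi.single_eq_same, inv_mul_cancel₀ h1, one_smul]
    · intro j _ hj
      rw [Pi.single_eq_of_ne hj, zero_mul, zero_smul]
    · intro hi
      exact absurd (Finset.mem_univ _) hi
  | zero => rw [up_zero]; exact Submodule.zero_mem _
  | add x y _ _ hx hy => rw [up_add]; exact Submodule.add_mem _ hx hy
  | smul c x _ hx => rw [up_smul]; exact Submodule.smul_mem _ _ hx

theorem dim_E2 (h : Dat A u v a X w z) {c : ℕ} (hc : Fintype.card ι ≤ finrank K (WW a) + c) :
    finrank K (E2 X u v) ≤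
      finrank (FF σ K) ((ext (FF σ K) X).map (gen A).mulVecLin) + c := by
  have h1 := Submodule.finrank_mono h.ext_E2_le
  rw [finrank_ext] at h1
  have h2 := finrank_map_codim (BBl u v z) (S₁ := ext (FF σ K) (WW a)) (S := ⊤) le_top
  rw [finrank_ext, finrank_top, finrank_fintype_fun_eq_card] at h2
  have h3 : (ext (FF σ K) (WW a)).map (BBl u v z) ≤
      (ext (FF σ K) X).map (gen A).mulVecLin := by
    rintro _ ⟨y, hy, rfl⟩
    obtain ⟨b, rfl⟩ := ext_le_range a hy
    exact ⟨xb z b, xb_mem h.hz b, h.gen_xb b⟩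
  have h4 := Submodule.finrank_mono h3
  omega

/-- the good vectors -/
noncomputable def X0 (a : σ → ι → K) (u : ι → m → K) (v : ι → n → K) (X : Submodule K (n → K))
    (w : m → FF σ K) (z : n → FF σ K) : Submodule (FF σ K) (n → FF σ K) :=
  (perp (LinearMap.ker (BBl u v z))).comap (nu u v w) ⊓
    ((ext (FF σ K) (WW a) ⊔ LinearMap.ker (BBl u v z)).comap (YY a v z) ⊓ ext (FF σ K) X)

theorem dot_N {x : n → FF σ K} (hx : x ∈ X0 a u v X w z) {y : ι → FF σ K}
    (hy : BB u v y z = 0) : w ⬝ᵥ BB u v y x = 0 := by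
  rw [dot_BB, dotProduct_comm]
  exact hx.1 y hy

theorem exists_W (h : Dat A u v a X w z) {x : n → FF σ K} (hx : x ∈ X0 a u v X w z) :
    ∃ y ∈ ext (FF σ K) (WW a), gen A *ᵥ x = BB u v y z ∧
      ∀ x' ∈ X0 a u v X w z, w ⬝ᵥ BB u v y x' = w ⬝ᵥ BB u v (YY a v z x) x' := by
  obtain ⟨y, hy, e, he, hye⟩ := Submodule.mem_sup.1 hx.2.1
  have he' : BB u v e z = 0 := he
  refine ⟨y, hy, ?_, fun x' hx' => ?_⟩
  · rw [← h.BB_YY hx.2.2, ← hye, BB_add_left, he', add_zero]
  · rw [← hye, BB_add_left, dotProduct_add, dot_N hx' he', add_zero]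

theorem key' (h : Dat A u v a X w z) (h2 : (2 : FF σ K) ≠ 0) {x x' : n → FF σ K}
    (hx : x ∈ X0 a u v X w z) (hx' : x' ∈ X0 a u v X w z) {y : ι → FF σ K}
    (hy : BB u v y z = gen A *ᵥ x') : w ⬝ᵥ BB u v y x = 0 := by
  obtain ⟨y1, hy1, e1, f1⟩ := h.exists_W hx
  obtain ⟨y2, hy2, e2, f2⟩ := h.exists_W hx'
  have e3 := h.star hy1 hy2 e1 e2
  rw [f1 x' hx', f2 x hx, YY_symm x' x, ← two_mul] at e3
  have e4 := (mul_eq_zero.1 e3).resolve_left h2
  have e5 : w ⬝ᵥ BB u v (y + (-1 : FF σ K) • y2) x = 0 := by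
    refine dot_N hx ?_
    rw [BB_add_left, BB_smul_left, hy, e2]
    simp
  rw [BB_add_left, BB_smul_left, dotProduct_add, dotProduct_smul, f2 x hx, YY_symm x' x, e4,
    smul_zero, add_zero] at e5
  exact e5

/-- the rank of the pairing -/
theorem dim_nu (h : Dat A u v a X w z) (h2 : (2 : FF σ K) ≠ 0) {c : ℕ}
    (hc : Fintype.card ι ≤ finrank K (WW a) + c) :
    finrank (FF σ K) ((ext (FF σ K) X).map (nu u v w)) ≤ 2 * c := by
  classical
  set W := ext (FF σ K) (WW a) with hW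
  set N := LinearMap.ker (BBl u v z) with hN
  set XW : Submodule (FF σ K) (n → FF σ K) := (W ⊔ N).comap (YY a v z) ⊓ ext (FF σ K) X with hXW
  set X1 : Submodule (FF σ K) (n → FF σ K) := X0 a u v X w z with hX1
  have hX1' : X1 = (perp N).comap (nu u v w) ⊓ XW := rfl
  have hX1XW : X1 ≤ XW := by rw [hX1']; exact inf_le_right
  set Q : Submodule (FF σ K) (ι → FF σ K) := (X1.map (gen A).mulVecLin).comap (BBl u v z) with hQ
  have hfW : finrank (FF σ K) W = finrank K (WW a) := finrank_ext _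
  -- codimension of `XW`
  have a1 := finrank_comap_le (YY a v z) (ext (FF σ K) X) (W ⊔ N)
  rw [← hXW, finrank_fintype_fun_eq_card, finrank_ext] at a1
  have a2 := Submodule.finrank_sup_add_finrank_inf_eq W N
  -- codimension of `X1`
  have b1 := finrank_map_sup (nu u v w) XW (perp N)
  rw [← hX1'] at b1
  have b2 : XW.map (nu u v w) ⊔ perp N ≤ perp (W ⊓ N) := by
    refine sup_le ?_ (perp_anti inf_le_right)
    rintro _ ⟨x, hx, rfl⟩ y ⟨hy1, hy2⟩
    obtain ⟨y', hy', e, he, hye⟩ := Submodule.mem_sup.1 hx.1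
    have he' : BB u v e z = 0 := he
    have hgx : gen A *ᵥ x = BB u v y' z := by
      rw [← h.BB_YY hx.2, ← hye, BB_add_left, he', add_zero]
    have hy2' : gen A *ᵥ (0 : n → FF σ K) = BB u v y z := by
      rw [mulVec_zero]
      exact (show BB u v y z = 0 from hy2).symm
    have := h.star hy1 hy' hy2' hgx
    rw [BB_zero_right, dotProduct_zero, zero_add, dot_BB, dotProduct_comm] at this
    exact this
  have b3 := Submodule.finrank_mono b2
  have b4 := finrank_perp N
  have b5 := finrank_perp (W ⊓ N)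
  -- dimension of `Q`
  have c1 := finrank_map_sup (BBl u v z) ⊤ (X1.map (gen A).mulVecLin)
  have c2 : (⊤ : Submodule (FF σ K) (ι → FF σ K)).map (BBl u v z) ⊔ X1.map (gen A).mulVecLin =
      (⊤ : Submodule (FF σ K) (ι → FF σ K)).map (BBl u v z) := by
    refine sup_eq_left.2 ?_
    rintro _ ⟨x, hx, rfl⟩
    exact ⟨YY a v z x, Submodule.mem_top, h.BB_YY hx.2.2⟩
  have c3 := finrank_map_add (BBl u v z) ⊤
  rw [c2, ← hQ, inf_top_eq, finrank_top, finrank_fintype_fun_eq_card] at c1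
  rw [inf_top_eq, finrank_top, finrank_fintype_fun_eq_card, ← hN] at c3
  -- dimension of the image of `X1`
  have d1 := finrank_map_codim (gen A).mulVecLin hX1XW
  have d2 : W.map (BBl u v z) ≤ XW.map (gen A).mulVecLin := by
    rintro _ ⟨y, hy, rfl⟩
    obtain ⟨b, rfl⟩ := ext_le_range a hy
    refine ⟨xb z b, ⟨?_, xb_mem h.hz b⟩, h.gen_xb b⟩
    have e1 : BB u v (YY a v z (xb z b) - kap a b) z = 0 := by
      rw [sub_eq_add_neg, BB_add_left, h.BB_YY (xb_mem h.hz b), h.gen_xb b, ← BB_add_left,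
        add_neg_cancel, BB_zero_left]
    have e2 : YY a v z (xb z b) - kap a b ∈ N := e1
    have e3 := Submodule.add_mem_sup (kap_mem a b) e2
    rw [add_sub_cancel] at e3
    exact e3
  have d3 := Submodule.finrank_mono d2
  have d4 := finrank_map_add (BBl u v z) W
  rw [← hN, inf_comm] at d4
  -- orthogonality
  have e1 : finrank (FF σ K) Q + finrank (FF σ K) (X1.map (nu u v w)) ≤ Fintype.card ι := by
    refine finrank_perp_le _ _ ?_
    rintro y hy _ ⟨x, hx, rfl⟩
    obtain ⟨x', hx', hxy⟩ := hy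
    rw [← dot_BB]
    exact h.key' h2 hx hx' hxy.symm
  have e2 := finrank_map_codim (nu u v w) (S₁ := X1) (S := ext (FF σ K) X)
    (hX1XW.trans inf_le_right)
  rw [finrank_ext] at e2
  omega

theorem dim_U (h : Dat A u v a X w z) (h2 : (2 : FF σ K) ≠ 0) {c : ℕ}
    (hc : Fintype.card ι ≤ finrank K (WW a) + c) :
    finrank K X ≤ finrank K (U1 X u v w) + 2 * c := by
  have e1 := h.dim_nu h2 hc
  have e2 := finrank_map_add (nu u v w) (ext (FF σ K) X)
  have e3 := Submodule.finrank_mono (ker_nu_le X u v w)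
  rw [finrank_ext] at e2 e3
  omega

theorem dim_E (h : Dat A u v a X w z) (h2 : (2 : FF σ K) ≠ 0) {c : ℕ}
    (hc : Fintype.card ι ≤ finrank K (WW a) + c) :
    finrank K (im A X) ≤ finrank K (im A (U1 X u v w)) + 3 * c := by
  have e0 := Submodule.finrank_mono h.im_U2
  have e1 := h.dim_E2 hc
  have e2 := h.dim_U h2 hc
  have hle : U1 X u v w ≤ X := fun _ hx => hx.1
  have e3 := finrank_map_codim (gen A).mulVecLin (ext_mono (F := FF σ K) hle)
  rw [finrank_ext, finrank_ext] at e3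
  have e5 := Submodule.finrank_mono (map_gen_le A (U1 X u v w))
  rw [finrank_ext] at e5
  omega

theorem cert (h : Dat A u v a X w z) : (gen A).rank + finrank K X = Fintype.card n +
    finrank (FF σ K) ((ext (FF σ K) X).map (gen A).mulVecLin ⊔
      ext (FF σ K) (im A (U1 X u v w)) : Submodule (FF σ K) (m → FF σ K)) := by
  rw [sup_eq_left.2 ((ext_mono h.im_U1).trans h.ext_E1_le)]
  have e1 := finrank_map_add (gen A).mulVecLin (ext (FF σ K) X)
  rw [inf_eq_left.2 h.hX, finrank_ext] at e1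
  have e2 := LinearMap.finrank_range_add_finrank_ker (gen A).mulVecLin
  rw [finrank_fintype_fun_eq_card] at e2
  change (gen A).rank + _ = _ at e2
  omega

end Dat

/-- the good points exist -/
theorem exists_dat [Infinite (FF σ K)] (A : σ → Matrix m n K) (u : ι → m → K) (v : ι → n → K)
    (a : σ → ι → K) (hA : ∀ k, A k = ∑ i, a k i • vecMulVec (u i) (v i)) :
    ∃ X w z, Dat A u v a X w z := by
  classical
  set Z := LinearMap.ker (gen A).mulVecLin with hZ
  set X := hull K Z with hX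
  -- the vector `z`
  obtain ⟨z, hz, hzv⟩ := Module.Dual.exists_forall_mem_ne_zero_of_forall_exists Z
    (fun i : {i // ¬ ∀ x ∈ X, v i ⬝ᵥ x = 0} =>
      (⟨⟨fun y => up (FF σ K) (v i.1) ⬝ᵥ y, fun a b => dotProduct_add _ _ _⟩,
        fun c a => dotProduct_smul _ _ _⟩ : (n → FF σ K) →ₗ[FF σ K] FF σ K)) (by
      rintro ⟨i, hi⟩
      by_contra hcon
      push Not at hcon
      exact hi fun x hx => hx (v i) fun z hz => hcon z hz)
  -- the covector `w`
  set Q : Submodule (FF σ K) (m → FF σ K) := (ext (FF σ K) X).map (gen A).mulVecLin with hQ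
  obtain ⟨w, hw, hwu⟩ := Module.Dual.exists_forall_mem_ne_zero_of_forall_exists (perp Q)
    (fun i : {i // up (FF σ K) (u i) ∉ Q} =>
      (⟨⟨fun y => y ⬝ᵥ up (FF σ K) (u i.1), fun a b => add_dotProduct _ _ _⟩,
        fun c a => smul_dotProduct _ _ _⟩ : (m → FF σ K) →ₗ[FF σ K] FF σ K)) (by
      rintro ⟨i, hi⟩
      by_contra hcon
      push Not at hcon
      exact hi (mem_iff_dot.2 fun ψ hψ => hcon ψ hψ))
  refine ⟨X, w, z, hA, fun y hy => hw _ ⟨y, hy, rfl⟩, le_ext_hull _, hz, fun i hi => ?_,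
    fun i hi => ?_⟩
  · by_contra h0
    exact hzv ⟨i, h0⟩ hi
  · by_contra h0
    exact hwu ⟨i, h0⟩ hi

end main

end Pool.Agent.W981.Blk
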