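import Pool.Agent.W981.Hyp.Core2

/-!
# The second order identity
-/

set_option autoImplicit false
set_option linter.unusedSectionVars false

namespace Pool.Agent.W981.Blk

open Pool.Agent.W981.Hyp Module Matrix MvPolynomial

section second

variable {σ K : Type*} [Field K] [DecidableEq σ] [Fintype σ] {n m : Type*} [Fintype n] [Fintype m]

theorem dot_leibniz (D : Derivation K (FF σ K) (FF σ K)) (w y : n → FF σ K) :
    D (w ⬝ᵥ y) = dv D w ⬝ᵥ y + w ⬝ᵥ dv D y := by
  rw [dotProduct, map_sum, dotProduct, dotProduct, ← Finset.sum_add_distrib]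
  refine Finset.sum_congr rfl fun a _ => ?_
  rw [D.leibniz, smul_eq_mul, smul_eq_mul]
  change _ = D (w a) * y a + w a * D (y a)
  ring

theorem gen_dv {A : σ → Matrix m n K} {z : n → FF σ K} (hz0 : gen A *ᵥ z = 0) (k : σ) :
    gen A *ᵥ dv (dF k) z = -((A k).map (algebraMap K (FF σ K)) *ᵥ z) := by
  have h := dv_gen_single A k z
  rw [hz0, dv_zero] at h
  exact eq_neg_of_add_eq_zero_left h.symm

theorem second_order (A : σ → Matrix m n K) {X : Submodule K (n → K)} {w : m → FF σ K}
    (hw : ∀ y ∈ ext (FF σ K) X, w ⬝ᵥ (gen A *ᵥ y) = 0) {z : n → FF σ K}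
    (hz : z ∈ ext (FF σ K) X) (hz0 : gen A *ᵥ z = 0) (j k : σ) :
    w ⬝ᵥ ((A k).map (algebraMap K (FF σ K)) *ᵥ dv (dF j) z) +
      w ⬝ᵥ ((A j).map (algebraMap K (FF σ K)) *ᵥ dv (dF k) z) = 0 := by
  have h1 := congrArg (dF j) (first_order A hw hz hz0 k)
  rw [map_zero, dot_leibniz, dv_const_mulVec] at h1
  have h2 := gen_dv hz0 k
  have h3 := congrArg (dF j) (hw (dv (dF k) z) (dv_mem _ hz))
  rw [map_zero, dot_leibniz, dv_gen_single, dotProduct_add, h2,
    hw _ (dv_mem _ (dv_mem _ hz)), zero_add, dotProduct_neg] at h3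
  linear_combination h1 + h3

end second

section family

variable {σ ι K : Type*} [Field K] [DecidableEq σ] [Fintype σ] [Fintype ι]
  {n m : Type*} [Fintype n] [Fintype m]

/-- the matrix `∑ y_i u_i v_iᵀ` applied to `x` -/
noncomputable def BB {F : Type*} [Field F] [Algebra K F] (u : ι → m → K) (v : ι → n → K)
    (y : ι → F) (x : n → F) : m → F :=
  ∑ i, (y i * (up F (v i) ⬝ᵥ x)) • up F (u i)

variable {F : Type*} [Field F] [Algebra K F] (u : ι → m → K) (v : ι → n → K)

theorem BB_add_left (y y' : ι → F) (x : n → F) : BB u v (y + y') x = BB u v y x + BB u v y' x := by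
  simp only [BB, ← Finset.sum_add_distrib, Pi.add_apply, add_mul, add_smul]

theorem BB_smul_left (c : F) (y : ι → F) (x : n → F) : BB u v (c • y) x = c • BB u v y x := by
  simp only [BB, Finset.smul_sum, Pi.smul_apply, smul_eq_mul, mul_assoc, smul_smul]

theorem BB_zero_left (x : n → F) : BB u v (0 : ι → F) x = 0 := by
  simp [BB]

theorem BB_add_right (y : ι → F) (x x' : n → F) : BB u v y (x + x') = BB u v y x + BB u v y x' := by
  simp only [BB, ← Finset.sum_add_distrib, dotProduct_add, mul_add, add_smul]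

theorem BB_smul_right (c : F) (y : ι → F) (x : n → F) : BB u v y (c • x) = c • BB u v y x := by
  simp only [BB, Finset.smul_sum, dotProduct_smul, smul_eq_mul, smul_smul]
  exact Finset.sum_congr rfl fun i _ => by congr 1; ring

theorem BB_zero_right (y : ι → F) : BB u v y (0 : n → F) = 0 := by
  simp [BB]

theorem BB_neg_right (y : ι → F) (x : n → F) : BB u v y (-x) = -BB u v y x := by
  have := BB_smul_right u v (-1) y x
  rwa [neg_one_smul, neg_one_smul] at this

theorem BB_sub_right (y : ι → F) (x x' : n → F) : BB u v y (x - x') = BB u v y x - BB u v y x' := by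
  rw [sub_eq_add_neg, BB_add_right, BB_neg_right, ← sub_eq_add_neg]

theorem BB_sum_left {τ : Type*} (s : Finset τ) (y : τ → ι → F) (x : n → F) :
    BB u v (∑ k ∈ s, y k) x = ∑ k ∈ s, BB u v (y k) x := by
  classical
  induction s using Finset.induction_on with
  | empty => rw [Finset.sum_empty, Finset.sum_empty, BB_zero_left]
  | insert a s ha ih => rw [Finset.sum_insert ha, Finset.sum_insert ha, BB_add_left, ih]

theorem BB_sum_right {τ : Type*} (s : Finset τ) (y : ι → F) (x : τ → n → F) :
    BB u v y (∑ k ∈ s, x k) = ∑ k ∈ s, BB u v y (x k) := by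
  classical
  induction s using Finset.induction_on with
  | empty => rw [Finset.sum_empty, Finset.sum_empty, BB_zero_right]
  | insert a s ha ih => rw [Finset.sum_insert ha, Finset.sum_insert ha, BB_add_right, ih]

/-- the pairing with a covector -/
noncomputable def nu (w : m → F) : (n → F) →ₗ[F] (ι → F) where
  toFun x := fun i => (w ⬝ᵥ up F (u i)) * (up F (v i) ⬝ᵥ x)
  map_add' x y := by
    funext i
    simp only [dotProduct_add, mul_add, Pi.add_apply]
  map_smul' c x := by
    funext i
    simp only [dotProduct_smul, smul_eq_mul, Pi.smul_apply, RingHom.id_apply]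
    ring

theorem dot_BB (w : m → F) (y : ι → F) (x : n → F) :
    w ⬝ᵥ BB u v y x = y ⬝ᵥ nu u v w x := by
  rw [BB, dotProduct_sum]
  refine Finset.sum_congr rfl fun i _ => ?_
  rw [dotProduct_smul, smul_eq_mul]
  change _ = y i * ((w ⬝ᵥ up F (u i)) * (up F (v i) ⬝ᵥ x))
  ring

theorem map_mulVec_eq {B : Matrix m n K} {a : ι → K}
    (hB : B = ∑ i, a i • vecMulVec (u i) (v i)) (x : n → F) :
    B.map (algebraMap K F) *ᵥ x = BB u v (up F a) x := by
  subst hB
  funext p
  simp only [mulVec, dotProduct, Matrix.map_apply, BB, Finset.sum_apply, Pi.smul_apply,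
    smul_eq_mul, Matrix.sum_apply, Matrix.smul_apply, vecMulVec_apply, map_sum, map_mul, up,
    Finset.sum_mul, Finset.mul_sum]
  rw [Finset.sum_comm]
  refine Finset.sum_congr rfl fun i _ => Finset.sum_congr rfl fun b _ => ?_
  ring

end family

end Pool.Agent.W981.Blk
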