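import Pool.Agent.W981.Blk.Second
import Pool.Agent.W981.Hyp.Border

/-!
# The main lemma
-/

set_option autoImplicit false
set_option linter.unusedSectionVars false

namespace Pool.Agent.W981.Blk

open Pool.Agent.W981.Hyp Module Matrix MvPolynomial

section dims

variable {F V V' : Type*} [Field F] [AddCommGroup V] [Module F V]
    [AddCommGroup V'] [Module F V']

theorem finrank_comap_le [FiniteDimensional F V] [FiniteDimensional F V'] (f : V →ₗ[F] V')
    (S : Submodule F V) (T : Submodule F V') :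
    finrank F T + finrank F S ≤ finrank F (T.comap f ⊓ S : Submodule F V) + finrank F V' := by
  have h1 := finrank_map_sup f S T
  have h2 := Submodule.finrank_le (S.map f ⊔ T)
  omega

theorem finrank_map_codim [FiniteDimensional F V] (f : V →ₗ[F] V') {S₁ S : Submodule F V}
    (h : S₁ ≤ S) : finrank F (S.map f) + finrank F S₁ ≤ finrank F (S₁.map f) + finrank F S := by
  have h1 := finrank_map_add f S
  have h2 := finrank_map_add f S₁
  have h3 := Submodule.finrank_mono (inf_le_inf_left (LinearMap.ker f) h)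
  omega

theorem finrank_perp_le {ι : Type*} [Fintype ι] (P Q : Submodule F (ι → F))
    (h : ∀ p ∈ P, ∀ q ∈ Q, p ⬝ᵥ q = 0) : finrank F P + finrank F Q ≤ Fintype.card ι := by
  classical
  have h1 := finrank_perp Q
  have h2 : P ≤ perp Q := fun p hp q hq => h p hp q hq
  have h3 := Submodule.finrank_mono h2
  omega

end dims

section main

variable {σ ι K : Type*} [Field K] [DecidableEq σ] [Fintype σ] [Fintype ι]
  {n m : Type*} [Fintype n] [Fintype m]

/-- The data of the argument. -/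
structure Dat (A : σ → Matrix m n K) (u : ι → m → K) (v : ι → n → K) (a : σ → ι → K)
    (X : Submodule K (n → K)) (w : m → FF σ K) (z : n → FF σ K) : Prop where
  hA : ∀ k, A k = ∑ i, a k i • vecMulVec (u i) (v i)
  hw : ∀ y ∈ ext (FF σ K) X, w ⬝ᵥ (gen A *ᵥ y) = 0
  hX : LinearMap.ker (gen A).mulVecLin ≤ ext (FF σ K) X
  hz0 : gen A *ᵥ z = 0
  hzv : ∀ i, up (FF σ K) (v i) ⬝ᵥ z = 0 → ∀ x ∈ X, v i ⬝ᵥ x = 0
  hwu : ∀ i, w ⬝ᵥ up (FF σ K) (u i) = 0 →
    up (FF σ K) (u i) ∈ (ext (FF σ K) X).map (gen A).mulVecLin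

/-- the parametrisation of the extension of `W` -/
noncomputable def kap (a : σ → ι → K) : (σ → FF σ K) →ₗ[FF σ K] (ι → FF σ K) :=
  Fintype.linearCombination (FF σ K) fun k => up (FF σ K) (a k)

/-- the space `W` -/
noncomputable def WW (a : σ → ι → K) : Submodule K (ι → K) := Submodule.span K (Set.range a)

theorem ext_le_range (a : σ → ι → K) : ext (FF σ K) (WW a) ≤ LinearMap.range (kap a) := by
  rw [ext_le_iff]
  intro w hw
  rw [WW] at hw
  induction hw using Submodule.span_induction with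
  | mem x hx =>
    obtain ⟨k, rfl⟩ := hx
    rw [kap, Fintype.range_linearCombination]
    exact Submodule.subset_span ⟨k, rfl⟩
  | zero => rw [up_zero]; exact Submodule.zero_mem _
  | add x y _ _ hx hy => rw [up_add]; exact Submodule.add_mem _ hx hy
  | smul c x _ hx => rw [up_smul]; exact Submodule.smul_mem _ _ hx

theorem kap_mem (a : σ → ι → K) (b : σ → FF σ K) : kap a b ∈ ext (FF σ K) (WW a) :=
  Submodule.sum_mem _ fun k _ => Submodule.smul_mem _ _
    (up_mem (Submodule.subset_span ⟨k, rfl⟩))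

/-- the vectors `x_b` -/
noncomputable def xb (z : n → FF σ K) : (σ → FF σ K) →ₗ[FF σ K] (n → FF σ K) :=
  Fintype.linearCombination (FF σ K) fun k => -dv (dF k) z

theorem xb_mem {X : Submodule K (n → K)} {z : n → FF σ K} (hz : z ∈ ext (FF σ K) X)
    (b : σ → FF σ K) : xb z b ∈ ext (FF σ K) X :=
  Submodule.sum_mem _ fun _ _ => Submodule.smul_mem _ _ (Submodule.neg_mem _ (dv_mem _ hz))

/-- the coefficients of the generic matrix -/
noncomputable def alp (a : σ → ι → K) : ι → FF σ K := kap a (tt K)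

/-- the map `Y` -/
noncomputable def YY (a : σ → ι → K) (v : ι → n → K) (z : n → FF σ K) :
    (n → FF σ K) →ₗ[FF σ K] (ι → FF σ K) where
  toFun x := fun i => alp a i * (up (FF σ K) (v i) ⬝ᵥ x) * (up (FF σ K) (v i) ⬝ᵥ z)⁻¹
  map_add' x y := by
    funext i
    simp only [dotProduct_add, mul_add, add_mul, Pi.add_apply]
  map_smul' c x := by
    funext i
    simp only [dotProduct_smul, smul_eq_mul, Pi.smul_apply, RingHom.id_apply]
    ring

namespace Dat

variable {A : σ → Matrix m n K} {u : ι → m → K} {v : ι → n → K} {a : σ → ι → K}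
    {X : Submodule K (n → K)} {w : m → FF σ K} {z : n → FF σ K}

theorem hz (h : Dat A u v a X w z) : z ∈ ext (FF σ K) X := h.hX h.hz0

theorem map_A (h : Dat A u v a X w z) (k : σ) (x : n → FF σ K) :
    (A k).map (algebraMap K (FF σ K)) *ᵥ x = BB u v (up (FF σ K) (a k)) x :=
  map_mulVec_eq u v (h.hA k) x

theorem gen_eq (h : Dat A u v a X w z) (x : n → FF σ K) : gen A *ᵥ x = BB u v (alp a) x := by
  rw [gen_mulVec, alp, kap, Fintype.linearCombination_apply, BB_sum_left]
  refine Finset.sum_congr rfl fun k _ => ?_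
  rw [h.map_A, BB_smul_left]

theorem gen_xb (h : Dat A u v a X w z) (b : σ → FF σ K) :
    gen A *ᵥ xb z b = BB u v (kap a b) z := by
  rw [xb, kap, Fintype.linearCombination_apply, Fintype.linearCombination_apply, mulVec_sum,
    BB_sum_left]
  refine Finset.sum_congr rfl fun k _ => ?_
  rw [mulVec_smul, mulVec_neg, gen_dv h.hz0, neg_neg, BB_smul_left, h.map_A]

theorem star0 (h : Dat A u v a X w z) (b b' : σ → FF σ K) :
    w ⬝ᵥ BB u v (kap a b') (xb z b) + w ⬝ᵥ BB u v (kap a b) (xb z b') = 0 := by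
  have e : ∀ b b' : σ → FF σ K, w ⬝ᵥ BB u v (kap a b') (xb z b) =
      -∑ j, ∑ k, b' j * b k * (w ⬝ᵥ ((A j).map (algebraMap K (FF σ K)) *ᵥ dv (dF k) z)) := by
    intro b b'
    rw [kap, xb, Fintype.linearCombination_apply, Fintype.linearCombination_apply, BB_sum_left,
      dotProduct_sum, ← Finset.sum_neg_distrib]
    refine Finset.sum_congr rfl fun j _ => ?_
    rw [BB_sum_right, dotProduct_sum, ← Finset.sum_neg_distrib]
    refine Finset.sum_congr rfl fun k _ => ?_
    rw [BB_smul_left, BB_smul_right, BB_neg_right, ← h.map_A, dotProduct_smul, dotProduct_smul,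
      dotProduct_neg, smul_eq_mul, smul_eq_mul]
    ring
  rw [e b b', e b' b, Finset.sum_comm (f := fun j k => b j * b' k * _), ← neg_add,
    ← Finset.sum_add_distrib, neg_eq_zero]
  refine Finset.sum_eq_zero fun j _ => ?_
  rw [← Finset.sum_add_distrib]
  refine Finset.sum_eq_zero fun k _ => ?_
  have := second_order A h.hw h.hz h.hz0 j k
  linear_combination b' j * b k * this

theorem dot_ker (h : Dat A u v a X w z) (b : σ → FF σ K) {y : n → FF σ K}
    (hy : gen A *ᵥ y = 0) : w ⬝ᵥ BB u v (kap a b) y = 0 := by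
  rw [kap, Fintype.linearCombination_apply, BB_sum_left, dotProduct_sum]
  refine Finset.sum_eq_zero fun k _ => ?_
  rw [BB_smul_left, dotProduct_smul, ← h.map_A, first_order A h.hw (h.hX hy) hy, smul_zero]

theorem star (h : Dat A u v a X w z) {y y' : ι → FF σ K} (hy : y ∈ ext (FF σ K) (WW a))
    (hy' : y' ∈ ext (FF σ K) (WW a)) {x x' : n → FF σ K} (hx : gen A *ᵥ x = BB u v y z)
    (hx' : gen A *ᵥ x' = BB u v y' z) : w ⬝ᵥ BB u v y' x + w ⬝ᵥ BB u v y x' = 0 := by
  obtain ⟨b, rfl⟩ := ext_le_range a hy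
  obtain ⟨b', rfl⟩ := ext_le_range a hy'
  have h1 := h.dot_ker b' (y := x - xb z b) (by
    rw [mulVec_sub, h.gen_xb, hx, sub_self])
  have h2 := h.dot_ker b (y := x' - xb z b') (by
    rw [mulVec_sub, h.gen_xb, hx', sub_self])
  rw [BB_sub_right, dotProduct_sub, sub_eq_zero] at h1 h2
  rw [h1, h2]
  exact h.star0 b b'

theorem BB_YY (h : Dat A u v a X w z) {x : n → FF σ K} (hx : x ∈ ext (FF σ K) X) :
    BB u v (YY a v z x) z = gen A *ᵥ x := by
  rw [h.gen_eq, BB, BB]
  refine Finset.sum_congr rfl fun i _ => ?_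
  congr 1
  change alp a i * (up (FF σ K) (v i) ⬝ᵥ x) * (up (FF σ K) (v i) ⬝ᵥ z)⁻¹ *
    (up (FF σ K) (v i) ⬝ᵥ z) = _
  by_cases hi : up (FF σ K) (v i) ⬝ᵥ z = 0
  · rw [dot_of_mem hx (h.hzv i hi)]
    ring
  · rw [mul_assoc, inv_mul_cancel₀ hi, mul_one]

theorem YY_symm (x x' : n → FF σ K) :
    w ⬝ᵥ BB u v (YY a v z x) x' = w ⬝ᵥ BB u v (YY a v z x') x := by
  rw [BB, BB, dotProduct_sum, dotProduct_sum]
  refine Finset.sum_congr rfl fun i _ => ?_
  rw [dotProduct_smul, dotProduct_smul]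
  congr 1
  change alp a i * (up (FF σ K) (v i) ⬝ᵥ x) * (up (FF σ K) (v i) ⬝ᵥ z)⁻¹ *
    (up (FF σ K) (v i) ⬝ᵥ x') = alp a i * (up (FF σ K) (v i) ⬝ᵥ x') *
      (up (FF σ K) (v i) ⬝ᵥ z)⁻¹ * (up (FF σ K) (v i) ⬝ᵥ x)
  ring

/-- the main lemma -/
theorem key (h : Dat A u v a X w z) (h2 : (2 : FF σ K) ≠ 0) {x : n → FF σ K}
    (hx : x ∈ ext (FF σ K) X) (hYx : YY a v z x ∈ ext (FF σ K) (WW a)) {b : σ → FF σ K}
    (hb : YY a v z (xb z b) ∈ ext (FF σ K) (WW a)) : w ⬝ᵥ BB u v (kap a b) x = 0 := by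
  have hxb := xb_mem h.hz b
  have e1 := h.star hYx (kap_mem a b) (h.BB_YY hx).symm (h.gen_xb b)
  have e2 := h.star hYx hb (h.BB_YY hx).symm (h.BB_YY hxb).symm
  have e3 : w ⬝ᵥ BB u v (YY a v z x) (xb z b) = w ⬝ᵥ BB u v (YY a v z (xb z b)) x :=
    YY_symm x (xb z b)
  have e4 : 2 * (w ⬝ᵥ BB u v (YY a v z x) (xb z b)) = 0 := by linear_combination e2 + e3
  have e5 := (mul_eq_zero.1 e4).resolve_left h2
  rw [e5, add_zero] at e1
  exact e1

end Dat

end main

end Pool.Agent.W981.Blk
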