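import Pool.Agent.W981.Blk.Dims
import Pool.Agent.W981.Hyp.Reduce
import Mathlib.Combinatorics.Nullstellensatz

/-!
# Special points
-/

set_option autoImplicit false
set_option linter.unusedSectionVars false

namespace Pool.Agent.W981.Blk

open Pool.Agent.W981.Hyp Module Matrix MvPolynomial

section points

variable {σ K : Type*} [Field K] [DecidableEq σ] [Fintype σ] {n m : Type*} [Fintype n] [Fintype m]

theorem exists_top_monomial {P : MvPolynomial σ K} (hP : P ≠ 0) :
    ∃ t : σ →₀ ℕ, P.coeff t ≠ 0 ∧ P.totalDegree = t.degree := by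
  obtain ⟨t, ht, h⟩ := Finset.exists_mem_eq_sup P.support
    (MvPolynomial.support_nonempty.2 hP) (fun s => s.degree)
  refine ⟨t, MvPolynomial.mem_support_iff.1 ht, ?_⟩
  rw [← h]
  rfl

theorem sym_entry (A : σ → Matrix m n K) (i : m) (j : n) :
    (sym A i j).totalDegree ≤ 1 := by
  simp only [sym, Matrix.sum_apply, Matrix.smul_apply, Matrix.map_apply, smul_eq_mul]
  refine (totalDegree_finsetSum _ _).trans (Finset.sup_le fun k _ => ?_)
  refine (totalDegree_mul _ _).trans ?_
  rw [totalDegree_C, add_zero, totalDegree_X]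

theorem det_totalDegree {r : ℕ} (M : Matrix (Fin r) (Fin r) (MvPolynomial σ K))
    (hM : ∀ i j, (M i j).totalDegree ≤ 1) : M.det.totalDegree ≤ r := by
  rw [Matrix.det_apply]
  refine (totalDegree_finsetSum _ _).trans (Finset.sup_le fun π _ => ?_)
  have h1 : (∏ i, M (π i) i).totalDegree ≤ r := by
    refine (totalDegree_finsetProd _ _).trans ?_
    refine (Finset.sum_le_sum fun i _ => hM (π i) i).trans ?_
    simp
  rcases Int.units_eq_one_or (Equiv.Perm.sign π) with h | h
  · rw [h, one_smul]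
    exact h1
  · rw [h, Units.neg_smul, one_smul, totalDegree_neg]
    exact h1

/-- A point of small weight at which the rank is the generic rank. -/
theorem special_point [CharZero K] (B : σ → Matrix m n K) :
    ∃ lam : σ → ℕ, ∑ k, lam k ≤ (gen B).rank ∧
      (gen B).rank ≤ (∑ k, (lam k : K) • B k).rank := by
  classical
  obtain ⟨e, f, h⟩ := exists_minor (gen B)
  rw [det_gen_sub, Ne, FaithfulSMul.algebraMap_eq_zero_iff] at h
  obtain ⟨P, hP⟩ : ∃ P, P = ((sym B).submatrix e f).det := ⟨_, rfl⟩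
  rw [← hP] at h
  have hdeg : P.totalDegree ≤ (gen B).rank := by
    rw [hP]
    exact det_totalDegree _ fun i j => sym_entry B _ _
  obtain ⟨t, ht, htd⟩ := exists_top_monomial h
  obtain ⟨s, hs, hs2⟩ := combinatorial_nullstellensatz_exists_eval_nonzero P t ht htd
    (fun i => (Finset.range (t i + 1)).image (Nat.cast : ℕ → K)) (fun i => by
      rw [Finset.card_image_of_injective _ Nat.cast_injective, Finset.card_range]
      exact Nat.lt_succ_self _)
  have hs' : ∀ i, ∃ l : ℕ, l ≤ t i ∧ (l : K) = s i := by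
    intro i
    obtain ⟨l, hl, hl2⟩ := Finset.mem_image.1 (hs i)
    exact ⟨l, Nat.lt_succ_iff.1 (Finset.mem_range.1 hl), hl2⟩
  choose lam hlam hlam2 using hs'
  refine ⟨lam, ?_, ?_⟩
  · calc ∑ k, lam k ≤ ∑ k, t k := Finset.sum_le_sum fun k _ => hlam k
      _ = t.degree := by
        rw [Finsupp.degree_eq_sum]
      _ ≤ (gen B).rank := by rw [← htd]; exact hdeg
  · have h3 : s = fun k => (lam k : K) := funext fun k => (hlam2 k).symm
    rw [h3, hP] at hs2
    exact le_rank_of_minor _ e f (by rw [det_eval_sub]; exact hs2)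

end points

section blk

variable {F V V' D : Type*} [Field F] [AddCommGroup V] [Module F V] [AddCommGroup V'] [Module F V']
  [AddCommGroup D] [Module F D] [FiniteDimensional F V']

theorem blk_rank (G : V →ₗ[F] V') (Φ : V' →ₗ[F] V') (Ψ : D →ₗ[F] V) (U₁ U₂ : Submodule F V)
    (S : Submodule F V') (hΦ : LinearMap.ker Φ = S) (hU : U₁ ⊔ LinearMap.range Ψ = U₂)
    (hS : U₁.map G ≤ S) : finrank F (U₂.map G ⊔ S : Submodule F V') =
      finrank F S + finrank F (LinearMap.range (Φ ∘ₗ G ∘ₗ Ψ)) := by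
  have h1 : U₂.map G ⊔ S = LinearMap.range (G ∘ₗ Ψ) ⊔ S := by
    rw [← hU, Submodule.map_sup, LinearMap.range_comp]
    apply le_antisymm
    · exact sup_le (sup_le (hS.trans le_sup_right) le_sup_left) le_sup_right
    · exact sup_le (le_sup_right.trans le_sup_left) le_sup_right
  have h2 := finrank_map_add Φ (LinearMap.range (G ∘ₗ Ψ) ⊔ S)
  have h3 : (LinearMap.range (G ∘ₗ Ψ) ⊔ S).map Φ = LinearMap.range (Φ ∘ₗ G ∘ₗ Ψ) := by
    rw [Submodule.map_sup, ← LinearMap.range_comp]
    have : S.map Φ = ⊥ := by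
      rw [eq_bot_iff]
      rintro _ ⟨x, hx, rfl⟩
      rw [← hΦ] at hx
      exact hx
    rw [this, sup_bot_eq]
  have h4 : (LinearMap.ker Φ ⊓ (LinearMap.range (G ∘ₗ Ψ) ⊔ S) : Submodule F V') = S := by
    rw [hΦ]
    exact inf_eq_left.2 le_sup_right
  rw [h3, h4] at h2
  rw [h1]
  omega

end blk

section ranges

variable {K F : Type*} [Field K] [Field F] [Algebra K F] {n m : Type*} [Fintype n] [Fintype m]

theorem ext_span_range {τ : Type*} (f : τ → n → K) : ext F (Submodule.span K (Set.range f)) =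
    Submodule.span F (Set.range fun i => up F (f i)) := by
  apply le_antisymm
  · rw [ext_le_iff]
    intro w hw
    induction hw using Submodule.span_induction with
    | mem x hx =>
      obtain ⟨k, rfl⟩ := hx
      exact Submodule.subset_span ⟨k, rfl⟩
    | zero => rw [up_zero]; exact Submodule.zero_mem _
    | add x y _ _ hx hy => rw [up_add]; exact Submodule.add_mem _ hx hy
    | smul c x _ hx => rw [up_smul]; exact Submodule.smul_mem _ _ hx
  · rw [Submodule.span_le]
    rintro _ ⟨i, rfl⟩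
    exact up_mem (Submodule.subset_span ⟨i, rfl⟩)

theorem ker_ext {S : Submodule K (m → K)} {P : Matrix m m K} (h1 : ∀ w ∈ S, P *ᵥ w = 0)
    (h2 : ∀ y, y - P *ᵥ y ∈ S) :
    LinearMap.ker (P.map (algebraMap K F)).mulVecLin = ext F S := by
  ext y
  constructor
  · intro hy
    have h3 : P.map (algebraMap K F) *ᵥ y = 0 := hy
    have h4 := sub_mem_ext h2 y
    rwa [h3, sub_zero] at h4
  · intro hy
    rw [LinearMap.mem_ker, mulVecLin_apply]
    funext a
    exact dot_of_mem hy fun w hw => congrFun (h1 w hw) a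

theorem exists_columns {U₁ U₂ : Submodule K (n → K)} (h : U₁ ≤ U₂) : ∃ (d : ℕ)
    (P : Matrix n (Fin d) K), finrank K U₁ + d = finrank K U₂ ∧
      U₁ ⊔ LinearMap.range P.mulVecLin = U₂ ∧
      ∀ (F : Type _) [Field F] [Algebra K F],
        ext F U₁ ⊔ LinearMap.range (P.map (algebraMap K F)).mulVecLin = ext F U₂ := by
  obtain ⟨C', hC'⟩ := Submodule.exists_isCompl U₁
  set C := C' ⊓ U₂ with hC
  have h1 : U₁ ⊔ C = U₂ := by
    rw [hC, ← sup_inf_assoc_of_le _ h, hC'.sup_eq_top, top_inf_eq]
  have h2 : U₁ ⊓ C = ⊥ := by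
    rw [eq_bot_iff, ← hC'.inf_eq_bot]
    exact inf_le_inf_left _ inf_le_left
  have h3 := Submodule.finrank_sup_add_finrank_inf_eq U₁ C
  rw [h1, h2, finrank_bot] at h3
  obtain ⟨f, hf1, hf2, -⟩ := Submodule.exists_fun_fin_finrank_span_eq K (C : Set (n → K))
  have hCs : Submodule.span K (C : Set (n → K)) = C := Submodule.span_eq C
  refine ⟨_, Matrix.of fun a j => f j a, ?_, ?_, ?_⟩
  · rw [hCs]
    omega
  · rw [Matrix.range_mulVecLin]
    have : Set.range (Matrix.of fun a j => f j a).col = Set.range f := rfl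
    rw [this, hf2, hCs, h1]
  · intro F _ _
    rw [Matrix.range_mulVecLin]
    have : Set.range ((Matrix.of fun a j => f j a).map (algebraMap K F)).col =
        Set.range fun j => up F (f j) := rfl
    rw [this, ← ext_span_range, hf2, hCs, ← ext_sup, h1]

end ranges

section final

variable {σ K : Type*} [Field K] [DecidableEq σ] [Fintype σ] {n m : Type*} [Fintype n] [Fintype m]

theorem im_map_le (A : σ → Matrix m n K) (U : Submodule K (n → K)) (lam : σ → K) :
    U.map (∑ k, lam k • A k).mulVecLin ≤ im A U := by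
  rintro _ ⟨x, hx, rfl⟩
  rw [mulVecLin_apply, Matrix.sum_mulVec]
  refine Submodule.sum_mem _ fun k _ => ?_
  rw [smul_mulVec]
  exact Submodule.smul_mem _ _ (mem_im hx k)

/-- the two ranks of the block as ranks of the same family -/
theorem two_ranks (A : σ → Matrix m n K) {U₁ U₂ : Submodule K (n → K)} (h : U₁ ≤ U₂) :
    ∃ (d : ℕ) (B : σ → Matrix m (Fin d) K), finrank K U₁ + d = finrank K U₂ ∧
      finrank (FF σ K) ((ext (FF σ K) U₂).map (gen A).mulVecLin ⊔ ext (FF σ K) (im A U₁) :
        Submodule (FF σ K) (m → FF σ K)) = finrank K (im A U₁) + (gen B).rank ∧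
      ∀ lam : σ → K, finrank K (U₂.map (∑ k, lam k • A k).mulVecLin ⊔ im A U₁ :
        Submodule K (m → K)) = finrank K (im A U₁) + (∑ k, lam k • B k).rank := by
  classical
  obtain ⟨d, P, hd, hP, hPF⟩ := exists_columns h
  obtain ⟨Φ, h1, h2⟩ := exists_ker (im A U₁)
  refine ⟨d, fun k => Φ * A k * P, hd, ?_, fun lam => ?_⟩
  · have e1 := blk_rank (gen A).mulVecLin (Φ.map (algebraMap K (FF σ K))).mulVecLin
      (P.map (algebraMap K (FF σ K))).mulVecLin (ext (FF σ K) U₁) (ext (FF σ K) U₂)
      (ext (FF σ K) (im A U₁)) (ker_ext h1 h2) (hPF (FF σ K)) (map_gen_le A U₁)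
    rw [e1, finrank_ext]
    congr 1
    rw [← mulVecLin_mul, ← mulVecLin_mul]
    have e2 : gen (fun k => Φ * A k * P) = Φ.map (algebraMap K (FF σ K)) *
        (gen A * P.map (algebraMap K (FF σ K))) := by
      rw [gen, gen, Matrix.sum_mul, Matrix.mul_sum]
      refine Finset.sum_congr rfl fun k _ => ?_
      rw [Matrix.map_mul, Matrix.map_mul, Matrix.smul_mul, Matrix.mul_smul, Matrix.mul_assoc]
    rw [e2]
    rfl
  · have hker : LinearMap.ker Φ.mulVecLin = im A U₁ := by
      ext y
      constructor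
      · intro hy
        have h3 : Φ *ᵥ y = 0 := hy
        have h4 := h2 y
        rwa [h3, sub_zero] at h4
      · intro hy
        exact h1 y hy
    have e1 := blk_rank (∑ k, lam k • A k).mulVecLin Φ.mulVecLin P.mulVecLin U₁ U₂
      (im A U₁) hker hP (im_map_le A U₁ lam)
    rw [e1]
    congr 1
    rw [← mulVecLin_mul, ← mulVecLin_mul]
    have e2 : ∑ k, lam k • (Φ * A k * P) = Φ * ((∑ k, lam k • A k) * P) := by
      rw [Matrix.sum_mul, Matrix.mul_sum]
      refine Finset.sum_congr rfl fun k _ => ?_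
      rw [Matrix.smul_mul, Matrix.mul_smul, Matrix.mul_assoc]
    rw [e2]
    rfl

theorem blk_le (A : σ → Matrix m n K) {U₁ U₂ : Submodule K (n → K)} (h : U₁ ≤ U₂) (lam : σ → K) :
    finrank K (U₂.map (∑ k, lam k • A k).mulVecLin ⊔ im A U₁ : Submodule K (m → K)) ≤
      finrank (FF σ K) ((ext (FF σ K) U₂).map (gen A).mulVecLin ⊔ ext (FF σ K) (im A U₁) :
        Submodule (FF σ K) (m → FF σ K)) := by
  obtain ⟨d, B, -, h1, h2⟩ := two_ranks A h
  rw [h1, h2]
  exact Nat.add_le_add_left (rank_point_le B lam) _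

theorem blk_point [CharZero K] (A : σ → Matrix m n K) {U₁ U₂ : Submodule K (n → K)}
    (h : U₁ ≤ U₂) : ∃ lam : σ → ℕ, finrank K U₁ + ∑ k, lam k ≤ finrank K U₂ ∧
      finrank K (U₂.map (∑ k, (lam k : K) • A k).mulVecLin ⊔ im A U₁ : Submodule K (m → K)) =
      finrank (FF σ K) ((ext (FF σ K) U₂).map (gen A).mulVecLin ⊔ ext (FF σ K) (im A U₁) :
        Submodule (FF σ K) (m → FF σ K)) := by
  obtain ⟨d, B, hd, h1, h2⟩ := two_ranks A h
  obtain ⟨lam, hl1, hl2⟩ := special_point B
  refine ⟨lam, ?_, le_antisymm (blk_le A h _) ?_⟩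
  · have h3 : (gen B).rank ≤ d := by simpa using (gen B).rank_le_card_width
    omega
  · rw [h1, h2]
    exact Nat.add_le_add_left hl2 _

/-- the upper bound for all pairs -/
theorem pair_upper (A : σ → Matrix m n K) (U₁ U₂ : Submodule K (n → K)) :
    (gen A).rank + finrank K U₂ ≤ Fintype.card n +
      finrank (FF σ K) ((ext (FF σ K) U₂).map (gen A).mulVecLin ⊔ ext (FF σ K) (im A U₁) :
        Submodule (FF σ K) (m → FF σ K)) := by
  have h1 := finrank_map_add (gen A).mulVecLin (ext (FF σ K) U₂)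
  have h2 := Submodule.finrank_mono (le_sup_left :
    (ext (FF σ K) U₂).map (gen A).mulVecLin ≤ _ ⊔ ext (FF σ K) (im A U₁))
  have h3 : finrank (FF σ K) (LinearMap.ker (gen A).mulVecLin ⊓ ext (FF σ K) U₂ :
      Submodule (FF σ K) (n → FF σ K)) ≤ finrank (FF σ K) (LinearMap.ker (gen A).mulVecLin) :=
    Submodule.finrank_mono inf_le_left
  have h4 := LinearMap.finrank_range_add_finrank_ker (gen A).mulVecLin
  rw [finrank_fintype_fun_eq_card] at h4
  change (gen A).rank + _ = _ at h4
  rw [finrank_ext] at h1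
  omega

/-- **The block theorem.** -/
theorem blocks (A : σ → Matrix m n K) (R : Set (Matrix m n K)) (hR : ∀ T ∈ R, T.rank ≤ 1)
    (hA : ∀ k, A k ∈ Submodule.span K R) (c : ℕ)
    (hc : finrank K (Submodule.span K R) ≤ finrank K (Submodule.span K (Set.range A)) + c)
    (h2 : (2 : K) ≠ 0) : ∃ U₁ U₂ : Submodule K (n → K), U₁ ≤ U₂ ∧
      finrank K U₂ ≤ finrank K U₁ + 2 * c ∧
      finrank K (im A U₂) ≤ finrank K (im A U₁) + 3 * c ∧
      (gen A).rank + finrank K U₂ = Fintype.card n +
        finrank (FF σ K) ((ext (FF σ K) U₂).map (gen A).mulVecLin ⊔ ext (FF σ K) (im A U₁) :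
          Submodule (FF σ K) (m → FF σ K)) := by
  rcases isEmpty_or_nonempty σ with hσ | hσ
  · refine ⟨⊤, ⊤, le_rfl, Nat.le_add_right _ _, Nat.le_add_right _ _, ?_⟩
    have h0 : gen A = 0 := by rw [gen, Finset.univ_eq_empty, Finset.sum_empty]
    have h3 : im A ⊤ = ⊥ := by rw [im, iSup_of_empty]
    rw [h0, h3, ext_bot, sup_bot_eq, Matrix.rank_zero, finrank_top, finrank_fintype_fun_eq_card,
      zero_add, Matrix.mulVecLin_zero, Submodule.map_zero, finrank_bot, add_zero]
  · obtain ⟨T, hTR, hTs, -⟩ := Submodule.exists_fun_fin_finrank_span_eq K R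
    have huv : ∀ i, ∃ u v, T i = vecMulVec u v := fun i => exists_vecMulVec (hR _ (hTR i))
    choose u v huv using huv
    have hA' : ∀ k, ∃ a : Fin (finrank K (Submodule.span K R)) → K,
        ∑ i, a i • T i = A k := by
      intro k
      have := hA k
      rw [← hTs] at this
      exact (Submodule.mem_span_range_iff_exists_fun K).1 this
    choose a ha using hA'
    have hc' : Fintype.card (Fin (finrank K (Submodule.span K R))) ≤ finrank K (WW a) + c := by
      rw [Fintype.card_fin]
      refine hc.trans (Nat.add_le_add_right ?_ _)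
      have h3 : Submodule.span K (Set.range A) ≤
          (WW a).map (Fintype.linearCombination K T) := by
        rw [Submodule.span_le]
        rintro _ ⟨k, rfl⟩
        exact ⟨a k, Submodule.subset_span ⟨k, rfl⟩, ha k⟩
      exact (Submodule.finrank_mono h3).trans (Submodule.finrank_map_le _ _)
    have hinf : Infinite (FF σ K) := Infinite.of_injective _
      (IsFractionRing.injective (MvPolynomial σ K) (FF σ K))
    obtain ⟨X, w, z, h⟩ := exists_dat A u v a (fun k => by
      rw [← ha k]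
      exact Finset.sum_congr rfl fun i _ => by rw [huv i])
    have h2' : (2 : FF σ K) ≠ 0 := by
      have : (2 : FF σ K) = algebraMap K (FF σ K) 2 := by rw [map_ofNat]
      rw [this, Ne, map_eq_zero]
      exact h2
    exact ⟨U1 X u v w, X, fun _ hx => hx.1, h.dim_U h2' hc', h.dim_E h2' hc', h.cert⟩

end final

end Pool.Agent.W981.Blk
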